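import Pool.Agent.Helper28.POSB.Inv
import Pool.Agent.Helper8.POS.Cons

/-!
# The basins of a Möller map

Two integers are in the same basin if their `T`-orbits meet. Every basin has a natural density, positive as soon as it
contains an integer with a positive orbit, and the densities of the basins of the positive integers add up to `1`. More
generally, natural density is a countably additive probability measure on the sets which are invariant under `T` (in the
positive integers), and the null sets are those all of whose positive elements are dead.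

For `3x + 1`: the set of the integers whose orbit reaches `1` has a natural density `p > 0`, and `p = 1` if and only if all
positive integers reach `1`.
-/

set_option autoImplicit false

namespace Pool.Agent.Helper28.POSB

open Filter Topology Pool.Agent.Helper68.Moeller Pool.Agent.Helper52.Tao Pool.Agent.Helper8.ND
  Pool.Agent.Helper91 Pool.Agent.Helper8

variable {d m : ℕ} {r : ℤ → ℤ}

/-- The integers whose orbit meets the orbit of `a`. -/
def Basin (d m : ℕ) (r : ℤ → ℤ) (a : ℤ) : Set ℤ := {n | ∃ s t : ℕ, (T d m r)^[s] n = (T d m r)^[t] a}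

/-- The integers whose whole orbit is `> B`. -/
def Above (d m : ℕ) (r : ℤ → ℤ) (B : ℝ) : Set ℤ := {n | ∀ k : ℕ, B < ((T d m r)^[k] n : ℝ)}

theorem mem_Basin_self (a : ℤ) : a ∈ Basin d m r a := ⟨0, 0, rfl⟩

theorem Basin_symm {a b : ℤ} (h : b ∈ Basin d m r a) : a ∈ Basin d m r b := by
  obtain ⟨s, t, e⟩ := h
  exact ⟨t, s, e.symm⟩

theorem Basin_trans {a b c : ℤ} (h : b ∈ Basin d m r a) (h' : c ∈ Basin d m r b) :
    c ∈ Basin d m r a := by
  obtain ⟨s, t, e⟩ := h
  obtain ⟨s', t', e'⟩ := h'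
  refine ⟨s + s', t' + t, ?_⟩
  rw [Function.iterate_add_apply, e', ← Function.iterate_add_apply, Nat.add_comm s t',
    Function.iterate_add_apply, e, ← Function.iterate_add_apply]

theorem Basin_eq {a b n : ℤ} (ha : n ∈ Basin d m r a) (hb : n ∈ Basin d m r b) :
    Basin d m r a = Basin d m r b := by
  have hab : a ∈ Basin d m r b := Basin_trans hb (Basin_symm ha)
  ext x
  exact ⟨fun hx => Basin_trans hab hx, fun hx => Basin_trans (Basin_symm hab) hx⟩

theorem inv_Basin (a : ℤ) : Inv d m r (Basin d m r a) := by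
  intro n _
  constructor
  · rintro ⟨s, t, e⟩
    refine ⟨s, t + 1, ?_⟩
    rw [← Function.iterate_succ_apply, Function.iterate_succ_apply', e,
      ← Function.iterate_succ_apply' (T d m r) t a]
  · rintro ⟨s, t, e⟩
    exact ⟨s + 1, t, by rw [Function.iterate_succ_apply]; exact e⟩

theorem tinv_Above (B : ℝ) : TInv d m r (Above d m r B) B := by
  intro n hn
  constructor
  · intro h k
    rw [← Function.iterate_succ_apply]
    exact h (k + 1)
  · rintro h (_ | k)
    · exact hn
    · rw [Function.iterate_succ_apply]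
      exact h k

/-- An invariant set which contains an integer with a positive orbit. -/
theorem pos_of_orbit (h : Std d m r) {G : Set ℤ} (hG : Inv d m r G) {a : ℤ} (ha : a ∈ G)
    (hpos : ∀ k : ℕ, 1 ≤ (T d m r)^[k] a) : 0 < PL.dens G := by
  obtain ⟨p, v, s0, hB⟩ := POS.exists_Base h.hd h.hdm h.hco h.hw h.hr
  obtain ⟨t, ht⟩ := PRE.exists_alive hB hpos
  obtain ⟨c, hc, hp⟩ := inv_pos h
  have hmem : ∀ k : ℕ, (T d m r)^[k] a ∈ G := by
    intro k
    induction k with
    | zero => exact ha
    | succ k ih =>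
      rw [Function.iterate_succ_apply']
      exact (hG _ (by have := hpos k; omega)).1 ih
  have h1 := hp G hG _ (hmem t) (hpos t) ht
  have h2 : (0 : ℝ) < ((T d m r)^[t] a : ℝ) := by
    have := hpos t
    exact_mod_cast (by omega : 0 < (T d m r)^[t] a)
  have h3 : 0 < c / ((T d m r)^[t] a : ℝ) := by positivity
  linarith

theorem dens_univ (h : Std d m r) {G : Set ℤ} (hG : Inv d m r G) (hall : ∀ n : ℤ, 0 < n → n ∈ G) :
    PL.dens G = 1 := tendsto_nhds_unique (tendsto_dens h hG.tinv) (cN_univ_tendsto hall)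

/-- **Natural density is a measure on the invariant sets.** -/
theorem measure (h : Std d m r) : ∃ (c : ℝ) (δ : Set ℤ → ℝ), 0 < c ∧
    (∀ G : Set ℤ, Inv d m r G →
      Tendsto (fun x : ℝ => cN G x / x) atTop (𝓝 (δ G)) ∧
      (∀ a ∈ G, 1 ≤ a → ¬ PL.Dead d m r a → c / a ≤ δ G) ∧
      (∀ a ∈ G, (∀ k : ℕ, 1 ≤ (T d m r)^[k] a) → 0 < δ G) ∧
      (δ G = 0 ↔ ∀ a ∈ G, 0 < a → PL.Dead d m r a)) ∧
    (∀ G : ℕ → Set ℤ, (∀ i, Inv d m r (G i)) → (∀ i j, i ≠ j → Disjoint (G i) (G j)) →
      HasSum (fun i => δ (G i)) (δ (⋃ i, G i))) ∧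
    (∀ a : ℤ, Inv d m r (Basin d m r a)) ∧
    HasSum (fun C : {C : Set ℤ // ∃ a : ℤ, 0 < a ∧ C = Basin d m r a} => δ C) 1 := by
  obtain ⟨c, hc, hp⟩ := inv_pos h
  refine ⟨c, PL.dens, hc, fun G hG => ⟨tendsto_dens h hG.tinv, fun a ha ha1 hal => hp G hG a ha ha1 hal,
    fun a ha hpos => pos_of_orbit h hG ha hpos, dens_eq_zero_iff h hG⟩, ?_, inv_Basin, ?_⟩
  · intro G hG hdis
    exact hasSum_dens h hG fun i j hij => hdis i j hij
  · have hG : ∀ C : {C : Set ℤ // ∃ a : ℤ, 0 < a ∧ C = Basin d m r a}, Inv d m r (C : Set ℤ) := by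
      rintro ⟨C, a, -, rfl⟩
      exact inv_Basin a
    have hdis : Pairwise fun C D : {C : Set ℤ // ∃ a : ℤ, 0 < a ∧ C = Basin d m r a} =>
        Disjoint (C : Set ℤ) (D : Set ℤ) := by
      rintro ⟨C, a, ha, rfl⟩ ⟨D, b, hb, rfl⟩ hCD
      rw [Set.disjoint_left]
      intro n hn hn'
      exact hCD (Subtype.ext (Basin_eq hn hn'))
    have h1 := hasSum_dens h hG hdis
    rwa [dens_univ h (Inv.iUnion hG) fun n hn => Set.mem_iUnion.2
      ⟨⟨Basin d m r n, n, hn, rfl⟩, mem_Basin_self n⟩] at h1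

/-- The exceptional set and the orbits which stay large. -/
theorem above (h : Std d m r) : ∃ β : ℝ → ℝ,
    (∀ B : ℝ, Tendsto (fun x : ℝ => cN (Above d m r B) x / x) atTop (𝓝 (β B))) ∧
    ((E d m r).Finite ↔ ∃ B : ℝ, β B = 0) := by
  refine ⟨fun B => PL.dens (Above d m r B), fun B => tendsto_dens h (tinv_Above B), ?_, ?_⟩
  · intro hfin
    obtain ⟨B, hB⟩ := PRE.stay_empty h.hd h.hr hfin
    refine ⟨B, ?_⟩
    have e : Above d m r B = ∅ := by
      ext n
      constructor
      · intro hn
        exact hB n ⟨0, fun k _ => hn k⟩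
      · intro hn
        exact absurd hn (Set.notMem_empty n)
    show PL.dens (Above d m r B) = 0
    rw [e]
    exact dens_empty h
  · rintro ⟨B, hB⟩
    by_contra hinf
    obtain ⟨c, hc, X, hX⟩ := POS.stay_large h.hd h.hdm h.hco h.hw h.hr hinf B
    have h1 := le_dens_of (tendsto_dens h (tinv_Above B)) (b := c) (X := X) hX
    have h2 : PL.dens (Above d m r B) = 0 := hB
    linarith

theorem std_three : Std 2 3 (fun _ => -1) :=
  ⟨le_refl 2, by norm_num, by norm_num, POS.three_hyp.1, POS.three_hyp.2⟩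

/-- **The map `3x + 1`.** The set of the integers which reach `1` has a positive natural density, which is `1` only if all positive
integers reach `1`. -/
theorem three : ∃ p : ℝ, 0 < p ∧
    Tendsto (fun x : ℝ => cN {n : ℤ | ∃ t : ℕ, (T 2 3 (fun _ => -1))^[t] n = 1} x / x) atTop (𝓝 p) ∧
    (p = 1 ↔ ∀ n : ℤ, 0 < n → ∃ t : ℕ, (T 2 3 (fun _ => -1))^[t] n = 1) := by
  have h := std_three
  set G : Set ℤ := {n : ℤ | ∃ t : ℕ, (T 2 3 (fun _ => -1))^[t] n = 1} with hGdef
  have hT1 : T 2 3 (fun _ => -1) 1 = 2 := by decide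
  have hT2 : T 2 3 (fun _ => -1) 2 = 1 := by decide
  have hG : Inv 2 3 (fun _ => -1) G := by
    intro n _
    constructor
    · rintro ⟨_ | t, e⟩
      · rw [Function.iterate_zero, id_eq] at e
        subst e
        exact ⟨1, by rw [Function.iterate_one, hT1, hT2]⟩
      · rw [Function.iterate_succ_apply] at e
        exact ⟨t, e⟩
    · rintro ⟨t, e⟩
      exact ⟨t + 1, by rw [Function.iterate_succ_apply]; exact e⟩
  have hGc : Inv 2 3 (fun _ => -1) Gᶜ := fun n hn => by
    rw [Set.mem_compl_iff, Set.mem_compl_iff, hG n hn]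
  have h1G : (1 : ℤ) ∈ G := ⟨0, rfl⟩
  refine ⟨PL.dens G, pos_of_orbit h hG h1G (POS.three_pos one_pos), tendsto_dens h hG.tinv, ?_, ?_⟩
  · intro hp n hn
    by_contra hcon
    have h1 : n ∈ Gᶜ := hcon
    have h2 := pos_of_orbit h hGc h1 (POS.three_pos hn)
    have h3 := dens_union h hG.tinv hGc.tinv disjoint_compl_right
    rw [Set.union_compl_self, dens_univ h (fun n _ => Iff.rfl) fun n _ => Set.mem_univ n] at h3
    linarith
  · intro hall
    exact dens_univ h hG hall

end Pool.Agent.Helper28.POSB
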