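import Pool.Agent.Helper8.POS.Fin
import Pool.Agent.Helper8.PRE.Stay
import Pool.Agent.Helper91.PL.FIN
import Pool.Agent.Helper91.PL.D3
import Pool.Agent.Helper28.BE.Main
import Pool.Agent.Helper28.BE.FinalBeyond

/-!
# The invariant sets of a Möller map: natural density is a measure

A set `G` of integers is invariant if `n ∈ G ↔ T n ∈ G` for all `n > 0`. Such sets have a natural density
(`Helper91.PL.stab_tendsto`); the density is countably additive on them, because the set of the integers whose orbit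
stays above `z` has upper density at most `C z ^ (-δ)` (`Helper28.BE`); and it is `≥ c / a` if `a ≥ 1` is an element which is
not dead (`Helper8.POS.density_path`).
-/

set_option autoImplicit false

namespace Pool.Agent.Helper28.POSB

open Filter Topology Pool.Agent.Helper68.Moeller Pool.Agent.Helper52.Tao Pool.Agent.Helper8.ND
  Pool.Agent.Helper91

variable {d m : ℕ} {r : ℤ → ℤ}

/-- The standing hypotheses on the map. -/
structure Std (d m : ℕ) (r : ℤ → ℤ) : Prop where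
  hd : 2 ≤ d
  hdm : d < m
  hco : Nat.Coprime m d
  hw : (m : ℝ) ≤ (d : ℝ) ^ ((d : ℝ) / ((d : ℝ) - 1))
  hr : Admissible d m r

theorem Std.mix (h : Std d m r) : Mixing d m r :=
  mixing h.hd h.hdm h.hco (mixing_step h.hd h.hdm h.hco h.hw h.hr
    (fourier_decay h.hd h.hdm h.hco h.hw h.hr (one_block h.hd h.hdm h.hco h.hw)))

theorem Std.gam (h : Std d m r) : 0 < PL.gam d m := by
  have hd2 : (2 : ℝ) ≤ d := by exact_mod_cast h.hd
  have hd0 : (0 : ℝ) < d := by linarith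
  have h1 := log_m_lt h.hd h.hdm h.hco h.hw
  have e : (1 - 1 / (d : ℝ)) * Real.log m = (((d : ℝ) - 1) * Real.log m) / d := by
    field_simp
  unfold PL.gam
  rw [e, sub_pos, div_lt_iff₀ hd0]
  linarith

/-- `G` is invariant under `T`, in the positive integers. -/
def Inv (d m : ℕ) (r : ℤ → ℤ) (G : Set ℤ) : Prop := ∀ n : ℤ, 0 < n → (n ∈ G ↔ T d m r n ∈ G)

theorem Inv.tinv {G : Set ℤ} (hG : Inv d m r G) : TInv d m r G 0 :=
  fun n hn => hG n (by exact_mod_cast hn)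

theorem tendsto_dens (h : Std d m r) {G : Set ℤ} {z : ℝ} (hG : TInv d m r G z) :
    Tendsto (fun x : ℝ => cN G x / x) atTop (𝓝 (PL.dens G)) :=
  PL.hasDensity_of_fd (PL.stab_tendsto h.hd h.hdm h.hco h.hr h.gam h.mix hG)

/-! ### Elementary facts on counting functions -/

theorem cN_mono {G H : Set ℤ} (hGH : ∀ n ∈ G, 0 < n → n ∈ H) (x : ℝ) : cN G x ≤ cN H x := by
  unfold cN
  have hsub : {n : ℤ | n ∈ G ∧ 0 < n ∧ (n : ℝ) ≤ x} ⊆ {n : ℤ | n ∈ H ∧ 0 < n ∧ (n : ℝ) ≤ x} :=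
    fun n hn => ⟨hGH n hn.1 hn.2.1, hn.2⟩
  exact_mod_cast Set.ncard_le_ncard hsub (finite_cN H x)

theorem cN_union_le (G H : Set ℤ) (x : ℝ) : cN (G ∪ H) x ≤ cN G x + cN H x := by
  unfold cN
  have h1 : {n : ℤ | n ∈ G ∪ H ∧ 0 < n ∧ (n : ℝ) ≤ x} =
      {n : ℤ | n ∈ G ∧ 0 < n ∧ (n : ℝ) ≤ x} ∪ {n : ℤ | n ∈ H ∧ 0 < n ∧ (n : ℝ) ≤ x} := by
    ext n
    simp only [Set.mem_ofPred_eq, Set.mem_union]
    tauto
  rw [h1]
  exact_mod_cast Set.ncard_union_le _ _

theorem cN_union {G H : Set ℤ} (hGH : Disjoint G H) (x : ℝ) : cN (G ∪ H) x = cN G x + cN H x := by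
  unfold cN
  have h1 : {n : ℤ | n ∈ G ∪ H ∧ 0 < n ∧ (n : ℝ) ≤ x} =
      {n : ℤ | n ∈ G ∧ 0 < n ∧ (n : ℝ) ≤ x} ∪ {n : ℤ | n ∈ H ∧ 0 < n ∧ (n : ℝ) ≤ x} := by
    ext n
    simp only [Set.mem_ofPred_eq, Set.mem_union]
    tauto
  rw [h1]
  have h2 : Disjoint {n : ℤ | n ∈ G ∧ 0 < n ∧ (n : ℝ) ≤ x} {n : ℤ | n ∈ H ∧ 0 < n ∧ (n : ℝ) ≤ x} := by
    rw [Set.disjoint_left]
    rintro n ⟨hn, -⟩ ⟨hn', -⟩
    exact Set.disjoint_left.1 hGH hn hn'
  rw [Set.ncard_union_eq h2 (finite_cN G x) (finite_cN H x)]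
  push_cast
  ring

theorem cN_empty (x : ℝ) : cN ∅ x = 0 := by
  unfold cN
  simp

theorem cN_biUnion_le {ι : Type*} (F : Finset ι) (G : ι → Set ℤ) (x : ℝ) :
    cN (⋃ i ∈ F, G i) x ≤ ∑ i ∈ F, cN (G i) x := by
  classical
  induction F using Finset.induction_on with
  | empty => simp [cN_empty]
  | insert i F hi ih =>
    rw [Finset.set_biUnion_insert, Finset.sum_insert hi]
    exact (cN_union_le _ _ _).trans (by linarith)

/-- The limit of `⌊x⌋ / x`. -/
theorem cN_univ_tendsto {G : Set ℤ} (hG : ∀ n : ℤ, 0 < n → n ∈ G) :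
    Tendsto (fun x : ℝ => cN G x / x) atTop (𝓝 1) := by
  have h1 : ∀ x : ℝ, 0 ≤ x → cN G x = (⌊x⌋₊ : ℝ) := by
    intro x hx
    unfold cN
    have e : {n : ℤ | n ∈ G ∧ 0 < n ∧ (n : ℝ) ≤ x} = ((Finset.Icc (1 : ℤ) ⌊x⌋ : Finset ℤ) : Set ℤ) := by
      ext n
      rw [Set.mem_ofPred_eq, Finset.mem_coe, Finset.mem_Icc]
      constructor
      · rintro ⟨-, h1, h2⟩
        exact ⟨h1, Int.le_floor.2 h2⟩
      · rintro ⟨h1, h2⟩
        exact ⟨hG n h1, h1, Int.le_floor.1 h2⟩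
    rw [e, Set.ncard_coe_finset, Int.card_Icc]
    have e2 : (⌊x⌋ + 1 - 1).toNat = ⌊x⌋₊ := by
      rw [add_sub_cancel_right]
      rfl
    rw [e2]
  have h2 : Tendsto (fun x : ℝ => (⌊x⌋₊ : ℝ) / x) atTop (𝓝 1) := tendsto_nat_floor_div_atTop
  refine h2.congr' ?_
  filter_upwards [eventually_ge_atTop 0] with x hx
  rw [h1 x hx]

/-! ### Facts on the density of sets invariant beyond some point -/

theorem dens_nonneg (h : Std d m r) {G : Set ℤ} {z : ℝ} (hG : TInv d m r G z) : 0 ≤ PL.dens G := by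
  refine ge_of_tendsto (tendsto_dens h hG) ?_
  filter_upwards [eventually_gt_atTop 0] with x hx
  exact div_nonneg (cN_nonneg G x) hx.le

theorem dens_le_of {a b : ℝ} {G : Set ℤ} (hG : Tendsto (fun x : ℝ => cN G x / x) atTop (𝓝 a)) {X : ℝ}
    (hb : ∀ x : ℝ, X ≤ x → cN G x ≤ b * x) : a ≤ b := by
  refine le_of_tendsto hG ?_
  filter_upwards [eventually_gt_atTop 0, eventually_ge_atTop X] with x hx hX
  rw [div_le_iff₀ hx]
  exact hb x hX

theorem le_dens_of {a b : ℝ} {G : Set ℤ} (hG : Tendsto (fun x : ℝ => cN G x / x) atTop (𝓝 a)) {X : ℝ}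
    (hb : ∀ x : ℝ, X ≤ x → b * x ≤ cN G x) : b ≤ a := by
  refine ge_of_tendsto hG ?_
  filter_upwards [eventually_gt_atTop 0, eventually_ge_atTop X] with x hx hX
  rw [le_div_iff₀ hx]
  exact hb x hX

theorem dens_mono (h : Std d m r) {G H : Set ℤ} {z : ℝ} (hG : TInv d m r G z) (hH : TInv d m r H z)
    (hGH : ∀ n ∈ G, 0 < n → n ∈ H) : PL.dens G ≤ PL.dens H := by
  refine le_of_tendsto_of_tendsto (tendsto_dens h hG) (tendsto_dens h hH) ?_
  filter_upwards [eventually_gt_atTop 0] with x hx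
  exact div_le_div_of_nonneg_right (cN_mono hGH x) hx.le

theorem TInv.union {G H : Set ℤ} {z : ℝ} (hG : TInv d m r G z) (hH : TInv d m r H z) :
    TInv d m r (G ∪ H) z := fun n hn => by
  rw [Set.mem_union, Set.mem_union, hG n hn, hH n hn]

theorem dens_union (h : Std d m r) {G H : Set ℤ} {z : ℝ} (hG : TInv d m r G z) (hH : TInv d m r H z)
    (hGH : Disjoint G H) : PL.dens (G ∪ H) = PL.dens G + PL.dens H := by
  refine tendsto_nhds_unique (tendsto_dens h (TInv.union hG hH)) ?_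
  refine ((tendsto_dens h hG).add (tendsto_dens h hH)).congr fun x => ?_
  rw [cN_union hGH, add_div]

theorem dens_empty (h : Std d m r) : PL.dens ∅ = 0 := by
  have h1 : TInv d m r ∅ 0 := fun n _ => Iff.rfl
  refine tendsto_nhds_unique (tendsto_dens h h1) ?_
  simp [cN_empty]

theorem TInv.biUnion {ι : Type*} {F : Finset ι} {G : ι → Set ℤ} {z : ℝ}
    (hG : ∀ i ∈ F, TInv d m r (G i) z) : TInv d m r (⋃ i ∈ F, G i) z := fun n hn => by
  simp only [Set.mem_iUnion]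
  constructor
  · rintro ⟨i, hi, hn'⟩
    exact ⟨i, hi, (hG i hi n hn).1 hn'⟩
  · rintro ⟨i, hi, hn'⟩
    exact ⟨i, hi, (hG i hi n hn).2 hn'⟩

theorem dens_biUnion (h : Std d m r) {ι : Type*} (F : Finset ι) {G : ι → Set ℤ} {z : ℝ}
    (hG : ∀ i, TInv d m r (G i) z) (hdis : Pairwise fun i j => Disjoint (G i) (G j)) :
    PL.dens (⋃ i ∈ F, G i) = ∑ i ∈ F, PL.dens (G i) := by
  classical
  induction F using Finset.induction_on with
  | empty => simp [dens_empty h]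
  | insert i F hi ih =>
    rw [Finset.set_biUnion_insert, Finset.sum_insert hi, ← ih]
    refine dens_union h (hG i) (TInv.biUnion fun j _ => hG j) ?_
    rw [Set.disjoint_left]
    intro n hn hn'
    simp only [Set.mem_iUnion] at hn'
    obtain ⟨j, hj, hn'⟩ := hn'
    have hij : i ≠ j := fun e => hi (e ▸ hj)
    exact Set.disjoint_left.1 (hdis hij) hn hn'

/-! ### The orbits which stay large -/

theorem exists_stay (h : Std d m r) : ∃ C δ : ℝ, 0 < C ∧ 0 < δ ∧ ∀ x z : ℝ, 1 ≤ x → 1 ≤ z →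
    cN {n : ℤ | ∀ k : ℕ, z < ((T d m r)^[k] n : ℝ)} x ≤ C * x * z ^ (-δ) := by
  obtain ⟨η₁, δ, h1, h2, h3, h4⟩ := Pool.Agent.Helper28.BE.core h.hd h.hdm h.hco h.hw
  obtain ⟨η₂, h5, h6, h7⟩ := Pool.Agent.Helper28.BE.final_beyond h.hd h.hdm h.hco h.hw h1 h2
    (by norm_num : (0 : ℝ) < 1 / 400) (by norm_num) h3
  obtain ⟨C, hC, hC'⟩ := h7 r h.hr (h4 r h.hr)
  have h8 := eta_lt_one h.hd h.hdm h.hco h.hw
  refine ⟨C, 1 - η₂, hC, by linarith, fun x z hx hz => ?_⟩
  have h9 := hC' x z hx hz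
  have e : {n : ℤ | n ∈ {n : ℤ | ∀ k : ℕ, z < ((T d m r)^[k] n : ℝ)} ∧ 0 < n ∧ (n : ℝ) ≤ x} =
      {n : ℤ | 0 < n ∧ (n : ℝ) ≤ x ∧ ∀ k : ℕ, z < ((T d m r)^[k] n : ℝ)} := by
    ext n
    simp only [Set.mem_ofPred_eq]
    tauto
  unfold cN
  rw [e]
  have e2 : -(1 - η₂) = η₂ - 1 := by ring
  rw [e2]
  exact h9

/-- The first element `≤ z` on the orbit of an element of an invariant set. -/
theorem cover (h : Std d m r) : ∃ B : ℝ, 1 ≤ B ∧ ∀ z : ℝ, B ≤ z → ∀ G : Set ℤ, Inv d m r G →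
    ∀ n ∈ G, 0 < n → (∃ a ∈ G, 0 < a ∧ (a : ℝ) ≤ z ∧ n ∈ PL.Pr d m r a) ∨
      ∀ k : ℕ, z < ((T d m r)^[k] n : ℝ) := by
  obtain ⟨B, hB0, hB⟩ := Pool.Agent.Helper8.PRE.exists_resid_bound d r
  refine ⟨B + 1, by have : (0 : ℝ) ≤ B := by exact_mod_cast hB0
                    linarith, fun z hz G hG n hn hn0 => ?_⟩
  by_cases hk : ∀ k : ℕ, z < ((T d m r)^[k] n : ℝ)
  · exact Or.inr hk
  · left
    push Not at hk
    classical
    obtain ⟨k, hk1, hk2⟩ : ∃ k : ℕ, ((T d m r)^[k] n : ℝ) ≤ z ∧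
        ∀ i < k, z < ((T d m r)^[i] n : ℝ) := by
      refine ⟨Nat.find hk, Nat.find_spec hk, fun i hi => ?_⟩
      have := Nat.find_min hk hi
      push Not at this
      exact this
    have hB0' : (0 : ℝ) ≤ B := by exact_mod_cast hB0
    -- the orbit up to `k` is positive and in `G`
    have key : ∀ i ≤ k, 0 < (T d m r)^[i] n ∧ (T d m r)^[i] n ∈ G := by
      intro i
      induction i with
      | zero => exact fun _ => ⟨hn0, hn⟩
      | succ i ih =>
        intro hi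
        obtain ⟨h1, h2⟩ := ih (by omega)
        have h3 := hk2 i (by omega)
        rw [Function.iterate_succ_apply']
        refine ⟨?_, (hG _ h1).1 h2⟩
        have hlt : (B : ℝ) < ((T d m r)^[i] n : ℝ) := by linarith
        have hlt' : B < (T d m r)^[i] n := by exact_mod_cast hlt
        have hm1 : (1 : ℤ) ≤ m := by
          have := h.hdm
          exact_mod_cast (by omega : 1 ≤ m)
        have hd0 : (0 : ℤ) < d := by
          have := h.hd
          exact_mod_cast (by omega : 0 < d)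
        by_cases hdv : (d : ℤ) ∣ (T d m r)^[i] n
        · have h4 := d_mul_T_of_dvd (m := m) (r := r) hdv
          by_contra hcon
          push Not at hcon
          nlinarith
        · have h4 := d_mul_T_of_not_dvd h.hr h.hd hdv
          obtain ⟨e1, e2⟩ := emod_pos h.hd hdv
          have e3 := hB _ e1 e2
          rw [abs_le] at e3
          by_contra hcon
          push Not at hcon
          nlinarith
    obtain ⟨h1, h2⟩ := key k le_rfl
    exact ⟨(T d m r)^[k] n, h2, h1, hk1, k, rfl⟩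

/-! ### Countable additivity -/

theorem Inv.iUnion {ι : Type*} {G : ι → Set ℤ} (hG : ∀ i, Inv d m r (G i)) :
    Inv d m r (⋃ i, G i) := fun n hn => by
  simp only [Set.mem_iUnion]
  exact exists_congr fun i => hG i n hn

theorem Inv.diff {G H : Set ℤ} (hG : Inv d m r G) (hH : Inv d m r H) : Inv d m r (G \ H) :=
  fun n hn => by rw [Set.mem_sdiff, Set.mem_sdiff, hG n hn, hH n hn]

theorem Inv.biUnion {ι : Type*} {F : Finset ι} {G : ι → Set ℤ} (hG : ∀ i ∈ F, Inv d m r (G i)) :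
    Inv d m r (⋃ i ∈ F, G i) := fun n hn => by
  simp only [Set.mem_iUnion]
  constructor
  · rintro ⟨i, hi, hn'⟩
    exact ⟨i, hi, (hG i hi n hn).1 hn'⟩
  · rintro ⟨i, hi, hn'⟩
    exact ⟨i, hi, (hG i hi n hn).2 hn'⟩

/-- An invariant set without small elements has a small density. -/
theorem tail (h : Std d m r) {ε : ℝ} (hε : 0 < ε) : ∃ z : ℝ, 1 ≤ z ∧ ∀ G : Set ℤ, Inv d m r G →
    (∀ n ∈ G, 0 < n → z < n) → PL.dens G ≤ ε := by
  obtain ⟨C, δ, hC, hδ, hst⟩ := exists_stay h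
  obtain ⟨B, hB, hcov⟩ := cover h
  obtain ⟨z, hz1, hz2⟩ : ∃ z : ℝ, B ≤ z ∧ C * z ^ (-δ) < ε := by
    have h1 : Tendsto (fun z : ℝ => C * z ^ (-δ)) atTop (𝓝 (C * 0)) :=
      (tendsto_rpow_neg_atTop hδ).const_mul C
    rw [mul_zero] at h1
    have h2 := h1.eventually (gt_mem_nhds hε)
    obtain ⟨z, h3, h4⟩ := (h2.and (eventually_ge_atTop B)).exists
    exact ⟨z, h4, h3⟩
  have hz : 1 ≤ z := hB.trans hz1
  refine ⟨z, hz, fun G hG hGz => ?_⟩
  refine (dens_le_of (tendsto_dens h hG.tinv) (b := C * z ^ (-δ)) (X := 1) fun x hx => ?_).trans hz2.le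
  have h1 : cN G x ≤ cN {n : ℤ | ∀ k : ℕ, z < ((T d m r)^[k] n : ℝ)} x := by
    refine cN_mono (fun n hn hn0 => ?_) x
    rcases hcov z hz1 G hG n hn hn0 with ⟨a, ha, ha0, haz, -⟩ | h2
    · exact absurd haz (not_le.2 (hGz a ha ha0))
    · exact h2
  refine h1.trans ((hst x z hx hz).trans (le_of_eq ?_))
  ring

theorem hasSum_dens (h : Std d m r) {ι : Type*} {G : ι → Set ℤ} (hG : ∀ i, Inv d m r (G i))
    (hdis : Pairwise fun i j => Disjoint (G i) (G j)) :
    HasSum (fun i => PL.dens (G i)) (PL.dens (⋃ i, G i)) := by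
  classical
  rw [HasSum]
  rw [SummationFilter.unconditional_filter]
  rw [Metric.tendsto_atTop]
  intro ε hε
  obtain ⟨z, hz, htail⟩ := tail h (half_pos hε)
  have hfin : {i : ι | ∃ n : ℤ, n ∈ Set.Icc (1 : ℤ) ⌊z⌋ ∧ n ∈ G i}.Finite := by
    have e : {i : ι | ∃ n : ℤ, n ∈ Set.Icc (1 : ℤ) ⌊z⌋ ∧ n ∈ G i} =
        ⋃ n ∈ Set.Icc (1 : ℤ) ⌊z⌋, {i : ι | n ∈ G i} := by
      ext i
      simp only [Set.mem_ofPred_eq, Set.mem_iUnion]
      constructor
      · rintro ⟨n, h1, h2⟩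
        exact ⟨n, h1, h2⟩
      · rintro ⟨n, h1, h2⟩
        exact ⟨n, h1, h2⟩
    rw [e]
    refine Set.Finite.biUnion (Set.finite_Icc _ _) fun n _ => Set.Subsingleton.finite ?_
    intro i hi j hj
    by_contra hij
    exact Set.disjoint_left.1 (hdis hij) hi hj
  refine ⟨hfin.toFinset, fun F hF => ?_⟩
  rw [← dens_biUnion h F (z := 0) (fun i => (hG i).tinv) hdis]
  have h1 : Inv d m r (⋃ i ∈ F, G i) := Inv.biUnion fun i _ => hG i
  have h2 : Inv d m r (⋃ i, G i) := Inv.iUnion hG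
  have h3 := Inv.diff h2 h1
  have hsub : (⋃ i ∈ F, G i) ⊆ ⋃ i, G i := by
    intro n hn
    simp only [Set.mem_iUnion] at hn ⊢
    obtain ⟨i, -, hn⟩ := hn
    exact ⟨i, hn⟩
  have h4 : PL.dens (⋃ i, G i) = PL.dens (⋃ i ∈ F, G i) + PL.dens ((⋃ i, G i) \ ⋃ i ∈ F, G i) := by
    rw [← dens_union h h1.tinv h3.tinv Set.disjoint_sdiff_right, Set.union_sdiff_cancel hsub]
  have h5 : PL.dens ((⋃ i, G i) \ ⋃ i ∈ F, G i) ≤ ε / 2 := by
    refine htail _ h3 fun n hn hn0 => ?_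
    by_contra hcon
    push Not at hcon
    obtain ⟨hn1, hn2⟩ := hn
    apply hn2
    simp only [Set.mem_iUnion] at hn1 ⊢
    obtain ⟨i, hi⟩ := hn1
    refine ⟨i, hF ?_, hi⟩
    rw [Set.Finite.mem_toFinset]
    exact ⟨n, ⟨hn0, Int.le_floor.2 hcon⟩, hi⟩
  have h6 := dens_nonneg h h3.tinv
  rw [Real.dist_eq, h4, abs_lt]
  constructor <;> linarith

/-! ### Positivity -/

/-- The lower bound for the predecessors, with paths which stay above `a / K`. -/
theorem pos_beyond (h : Std d m r) : ∃ c K : ℝ, 0 < c ∧ 1 ≤ K ∧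
    (∀ (a : ℤ) (x : ℝ), 1 ≤ a → ¬ PL.Dead d m r a → (a : ℝ) ≤ x → c * (x / a) ≤ cN (PL.Pr d m r a) x) ∧
    ∀ z : ℝ, 0 ≤ z → ∀ G : Set ℤ, TInv d m r G z → ∀ a ∈ G, 1 ≤ a → K * z < a → ¬ PL.Dead d m r a →
      c / a ≤ PL.dens G := by
  obtain ⟨c, K, hc, hK, hpath⟩ :=
    Pool.Agent.Helper8.POS.density_path h.hd h.hdm h.hco h.hw h.hr
  have hK1 : (1 : ℝ) ≤ K := by exact_mod_cast hK
  have hK0 : (0 : ℝ) < K := by linarith
  refine ⟨c, K, hc, hK1, ?_, ?_⟩
  · intro a x ha hal hax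
    refine (hpath a x ha hal hax).trans ?_
    unfold cN
    have hsub : Pool.Agent.Helper8.POS.Pth d m r (a / K) a x ⊆
        {n : ℤ | n ∈ PL.Pr d m r a ∧ 0 < n ∧ (n : ℝ) ≤ x} := by
      rintro n ⟨⟨t, ht, -⟩, hn⟩
      exact ⟨⟨t, ht⟩, hn⟩
    exact_mod_cast Set.ncard_le_ncard hsub (finite_cN _ x)
  · intro z hz G hG a ha ha1 haz hal
    have ha0 : (0 : ℝ) < a := by exact_mod_cast (by omega : 0 < a)
    refine le_dens_of (tendsto_dens h hG) (X := a) fun x hx => ?_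
    refine le_trans (le_of_eq ?_) ((hpath a x ha1 hal hx).trans ?_)
    · ring
    unfold cN
    have hsub : Pool.Agent.Helper8.POS.Pth d m r (a / K) a x ⊆
        {n : ℤ | n ∈ G ∧ 0 < n ∧ (n : ℝ) ≤ x} := by
      rintro n ⟨⟨t, ht, hp⟩, hn⟩
      refine ⟨?_, hn⟩
      have hzK : z < (a : ℝ) / K := by
        rw [lt_div_iff₀ hK0]
        linarith
      -- go back from `a` to `n`
      have key : ∀ i ≤ t, (T d m r)^[t - i] n ∈ G := by
        intro i
        induction i with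
        | zero => intro _; rw [Nat.sub_zero, ht]; exact ha
        | succ i ih =>
          intro hi
          have h1 := ih (by omega)
          have h2 : t - i = (t - (i + 1)) + 1 := by omega
          rw [h2, Function.iterate_succ_apply'] at h1
          exact (hG _ (lt_of_lt_of_le hzK (hp _ (by omega)))).2 h1
      have h1 := key t le_rfl
      rwa [Nat.sub_self, Function.iterate_zero, id_eq] at h1
    exact_mod_cast Set.ncard_le_ncard hsub (finite_cN _ x)

theorem inv_pos (h : Std d m r) : ∃ c : ℝ, 0 < c ∧ ∀ G : Set ℤ, Inv d m r G → ∀ a ∈ G, 1 ≤ a →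
    ¬ PL.Dead d m r a → c / a ≤ PL.dens G := by
  obtain ⟨c, K, hc, hK, -, hp⟩ := pos_beyond h
  refine ⟨c, hc, fun G hG a ha ha1 hal => hp 0 le_rfl G hG.tinv a ha ha1 ?_ hal⟩
  have : (0 : ℝ) < a := by exact_mod_cast (by omega : 0 < a)
  linarith

/-- The null sets. -/
theorem dens_eq_zero_iff (h : Std d m r) {G : Set ℤ} (hG : Inv d m r G) :
    PL.dens G = 0 ↔ ∀ a ∈ G, 0 < a → PL.Dead d m r a := by
  classical
  constructor
  · intro h0 a ha ha0
    by_contra hal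
    obtain ⟨c, hc, hp⟩ := inv_pos h
    have h1 := hp G hG a ha ha0 hal
    have h2 : (0 : ℝ) < a := by exact_mod_cast ha0
    have h3 : 0 < c / a := by positivity
    linarith
  · intro hdead
    refine le_antisymm ?_ (dens_nonneg h hG.tinv)
    refine le_of_forall_pos_le_add fun ε hε => ?_
    rw [zero_add]
    obtain ⟨C, δ, hC, hδ, hst⟩ := exists_stay h
    obtain ⟨B, hB, hcov⟩ := cover h
    obtain ⟨z, hz1, hz2⟩ : ∃ z : ℝ, B ≤ z ∧ C * z ^ (-δ) < ε / 2 := by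
      have h1 : Tendsto (fun z : ℝ => C * z ^ (-δ)) atTop (𝓝 (C * 0)) :=
        (tendsto_rpow_neg_atTop hδ).const_mul C
      rw [mul_zero] at h1
      have h2 := h1.eventually (gt_mem_nhds (half_pos hε))
      obtain ⟨z, h3, h4⟩ := (h2.and (eventually_ge_atTop B)).exists
      exact ⟨z, h4, h3⟩
    have hz : 1 ≤ z := hB.trans hz1
    set F : Finset ℤ := (Finset.Icc (1 : ℤ) ⌊z⌋).filter (fun a => a ∈ G) with hF
    -- the predecessors of the finitely many small elements have density zero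
    have hsum : Tendsto (fun x : ℝ => ∑ a ∈ F, cN (PL.Pr d m r a) x / x) atTop (𝓝 0) := by
      have e : (0 : ℝ) = ∑ a ∈ F, (0 : ℝ) := by simp
      rw [e]
      refine tendsto_finsetSum F fun a ha => ?_
      have ha' := Finset.mem_filter.1 ha
      have ha1 := Finset.mem_Icc.1 ha'.1
      have h1 := PL.dead_dens h.hd h.hdm h.hco h.hr (hdead a ha'.2 (by omega))
      have h2 := tendsto_dens h (PL.tinv_Pr d m r a)
      rw [h1] at h2
      exact h2
    have hub : Tendsto (fun x : ℝ => ∑ a ∈ F, cN (PL.Pr d m r a) x / x + ε / 2) atTop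
        (𝓝 (0 + ε / 2)) := hsum.add tendsto_const_nhds
    have hle : PL.dens G ≤ 0 + ε / 2 := by
      refine le_of_tendsto_of_tendsto (tendsto_dens h hG.tinv) hub ?_
      filter_upwards [eventually_ge_atTop 1] with x hx
      have hx0 : 0 < x := by linarith
      have h1 : cN G x ≤ cN ((⋃ a ∈ F, PL.Pr d m r a) ∪
          {n : ℤ | ∀ k : ℕ, z < ((T d m r)^[k] n : ℝ)}) x := by
        refine cN_mono (fun n hn hn0 => ?_) x
        rcases hcov z hz1 G hG n hn hn0 with ⟨a, ha, ha0, haz, hna⟩ | h2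
        · left
          simp only [Set.mem_iUnion]
          refine ⟨a, ?_, hna⟩
          rw [hF, Finset.mem_filter, Finset.mem_Icc]
          exact ⟨⟨ha0, Int.le_floor.2 haz⟩, ha⟩
        · exact Or.inr h2
      have h2 := cN_union_le (⋃ a ∈ F, PL.Pr d m r a)
          {n : ℤ | ∀ k : ℕ, z < ((T d m r)^[k] n : ℝ)} x
      have h3 := cN_biUnion_le F (fun a => PL.Pr d m r a) x
      have h4 := hst x z hx hz
      have h5 : C * x * z ^ (-δ) ≤ ε / 2 * x := by
        have : C * x * z ^ (-δ) = (C * z ^ (-δ)) * x := by ring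
        rw [this]
        exact mul_le_mul_of_nonneg_right hz2.le hx0.le
      rw [← Finset.sum_div, div_add' _ _ _ hx0.ne', div_le_div_iff_of_pos_right hx0]
      linarith
    linarith

end Pool.Agent.Helper28.POSB
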